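import Mathlib

/-! Definitions for the question whether being stretched can be tested with a sublinear
number of samples. -/

namespace Pool.Agent.Helper90.Stretch

/-- A point of the plane. -/
abbrev Pt : Type := ℝ × ℝ

/-- Twice the signed area of the triangle `a b c`; its sign is the orientation of the
ordered triple `(a, b, c)`. -/
def area2 (a b c : Pt) : ℝ :=
  (b.1 - a.1) * (c.2 - a.2) - (b.2 - a.2) * (c.1 - a.1)

/-- `S` and `U` give the same configuration: some bijection preserves the orientation
of every ordered triple. -/
def SameConfig (S U : Finset Pt) : Prop :=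
  ∃ f : S ≃ U, ∀ a b c : S,
    SignType.sign (area2 (f a) (f b) (f c)) = SignType.sign (area2 a b c)

/-- No two points of `T` share an `x`- or a `y`-coordinate. -/
def NoSharedCoord (T : Finset Pt) : Prop :=
  ∀ s ∈ T, ∀ t ∈ T, s ≠ t → s.1 ≠ t.1 ∧ s.2 ≠ t.2

/-- `h` is an admissible choice of new heights in `STRETCH(T)`: each new point
`(t.1, h t)` lies above all points placed before it (those with smaller `y`-coordinate)
and above every line through two of them. -/
def StretchHeights (T : Finset Pt) (h : Pt → ℝ) : Prop :=
  (∀ s ∈ T, ∀ t ∈ T, s.2 < t.2 → h s < h t) ∧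
  (∀ s ∈ T, ∀ s' ∈ T, ∀ t ∈ T, s ≠ s' → s.2 < t.2 → s'.2 < t.2 →
    h s + (h s' - h s) / (s'.1 - s.1) * (t.1 - s.1) < h t)

/-- The configuration of `S` is stretched: it equals `STRETCH(T)` for some `T`. -/
def Stretched (S : Finset Pt) : Prop :=
  ∃ (T : Finset Pt) (h : Pt → ℝ), NoSharedCoord T ∧ StretchHeights T h ∧
    SameConfig S (T.image fun t => (t.1, h t))

/-- `S` is `ε`-far from being stretched: removing at most `ε * |S|` points never leaves a
stretched subconfiguration. -/
def IsFar (ε : ℝ) (S : Finset Pt) : Prop :=
  ∀ R ⊆ S, (R.card : ℝ) ≤ ε * S.card → ¬ Stretched (S \ R)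

open Classical in
/-- The probability that a uniformly random `m`-point subset of `S` is stretched. -/
noncomputable def acceptProb (m : ℕ) (S : Finset Pt) : ℝ :=
  (((S.powersetCard m).filter fun K => Stretched K).card : ℝ) / ((S.powersetCard m).card : ℝ)

/-- The sample-based tester with sample size `k` achieves false positive rate `p` at
distance `ε`: it accepts every configuration that is `ε`-far from being stretched with
probability at most `p`. -/
def Achieves (k : ℕ → ℕ) (ε p : ℝ) : Prop :=
  ∀ S : Finset Pt, IsFar ε S → acceptProb (k S.card) S ≤ p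

end Pool.Agent.Helper90.Stretch
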