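import Pool.Agent.Helper90.Stretch.Defs

/-! Local structure of stretched sets with a given top point. -/

namespace Pool.Agent.Helper90.Stretch

open Finset

theorem area2_swap (a b c : Pt) : area2 b a c = - area2 a b c := by
  unfold area2; ring

theorem area2_rot (a b c : Pt) : area2 b c a = area2 a b c := by
  unfold area2; ring

theorem area2_gp (a b c d q : Pt) :
    area2 a b c * area2 a d q - area2 a b d * area2 a c q + area2 a b q * area2 a c d = 0 := by
  unfold area2; ring

/-- `R` (with top `q`) is stretched, in combinatorial form. -/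
def Good (q : Pt) (R : Finset Pt) : Prop :=
  (∀ a ∈ R, ∀ b ∈ R, a ≠ b → area2 a b q ≠ 0) ∧
  (∀ a ∈ R, ∀ b ∈ R, ∀ c ∈ R, 0 < area2 a b q → 0 < area2 b c q → 0 < area2 a c q) ∧
  (∀ A ⊆ R, A.Nonempty → ∃ p ∈ A, ∀ i ∈ A, ∀ j ∈ A, i ≠ p → j ≠ p → i ≠ j →
    0 < area2 i j p * area2 i j q)

theorem Good.mono {q : Pt} {R R' : Finset Pt} (h : Good q R) (hs : R' ⊆ R) : Good q R' :=
  ⟨fun a ha b hb => h.1 a (hs ha) b (hs hb),
   fun a ha b hb c hc => h.2.1 a (hs ha) b (hs hb) c (hs hc),
   fun A hA => h.2.2 A (hA.trans hs)⟩

/-- A finite set with a total transitive relation has a first element. -/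
theorem exists_first {α : Type*} [DecidableEq α] (r : α → α → Prop) (A : Finset α)
    (hne : A.Nonempty)
    (htot : ∀ a ∈ A, ∀ b ∈ A, a ≠ b → r a b ∨ r b a)
    (htr : ∀ a ∈ A, ∀ b ∈ A, ∀ c ∈ A, r a b → r b c → a ≠ c → r a c) :
    ∃ m ∈ A, ∀ b ∈ A, b ≠ m → r m b := by
  classical
  induction hne using Finset.Nonempty.cons_induction with
  | singleton a => exact ⟨a, by simp, fun b hb hne => absurd (by simpa using hb) hne⟩
  | cons a s has hs ih =>
    have ih' := ih (fun x hx y hy => htot x (by simp [hx]) y (by simp [hy]))
      (fun x hx y hy z hz => htr x (by simp [hx]) y (by simp [hy]) z (by simp [hz]))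
    obtain ⟨m, hm, hmin⟩ := ih'
    have hma : m ≠ a := fun h => has (h ▸ hm)
    rcases htot m (by simp [hm]) a (by simp) hma with h | h
    · refine ⟨m, by simp [hm], fun b hb hbm => ?_⟩
      rcases Finset.mem_cons.1 hb with rfl | hb'
      · exact h
      · exact hmin b hb' hbm
    · refine ⟨a, by simp, fun b hb hba => ?_⟩
      rcases Finset.mem_cons.1 hb with hb' | hb'
      · exact absurd hb' hba
      · by_cases hbm : b = m
        · subst hbm; exact h
        · exact htr a (by simp) m (by simp [hm]) b (by simp [hb']) h (hmin b hb' hbm)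
            (fun hab => hba hab.symm)

/-- If all subsets with at most six elements are good, so is the whole set. -/
theorem good_of_local {q : Pt} {R : Finset Pt}
    (h : ∀ R' ⊆ R, R'.card ≤ 6 → Good q R') : Good q R := by
  classical
  have h1 : ∀ a ∈ R, ∀ b ∈ R, a ≠ b → area2 a b q ≠ 0 := by
    intro a ha b hb hab
    have hsub : ({a, b} : Finset Pt) ⊆ R := by
      intro x hx; simp only [Finset.mem_insert, Finset.mem_singleton] at hx
      rcases hx with rfl | rfl <;> assumption
    have hc : ({a, b} : Finset Pt).card ≤ 6 := le_trans Finset.card_le_two (by norm_num)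
    exact (h _ hsub hc).1 a (by simp) b (by simp) hab
  have h2 : ∀ a ∈ R, ∀ b ∈ R, ∀ c ∈ R, 0 < area2 a b q → 0 < area2 b c q → 0 < area2 a c q := by
    intro a ha b hb c hc hab hbc
    have hsub : ({a, b, c} : Finset Pt) ⊆ R := by
      intro x hx; simp only [Finset.mem_insert, Finset.mem_singleton] at hx
      rcases hx with rfl | rfl | rfl <;> assumption
    have hcard : ({a, b, c} : Finset Pt).card ≤ 6 := le_trans Finset.card_le_three (by norm_num)
    exact (h _ hsub hcard).2.1 a (by simp) b (by simp) c (by simp) hab hbc
  refine ⟨h1, h2, ?_⟩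
  intro A hA hne
  by_contra hcon
  push Not at hcon
  -- nondegeneracy of all triples
  have h3 : ∀ a ∈ A, ∀ b ∈ A, ∀ c ∈ A, a ≠ b → a ≠ c → b ≠ c → area2 a b c ≠ 0 := by
    intro a ha b hb c hc hab hac hbc h0
    have hsub : ({a, b, c} : Finset Pt) ⊆ R := by
      intro x hx; simp only [Finset.mem_insert, Finset.mem_singleton] at hx
      rcases hx with rfl | rfl | rfl <;> exact hA (by assumption)
    have hcard : ({a, b, c} : Finset Pt).card ≤ 6 := le_trans Finset.card_le_three (by norm_num)
    obtain ⟨p, hp, hpp⟩ := (h _ hsub hcard).2.2 _ (Finset.Subset.refl _) ⟨a, by simp⟩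
    simp only [Finset.mem_insert, Finset.mem_singleton] at hp
    rcases hp with rfl | rfl | rfl
    · have := hpp b (by simp) c (by simp) hab.symm hac.symm hbc
      rw [area2_rot, h0] at this; simp at this
    · have := hpp c (by simp) a (by simp) hbc.symm hab hac.symm
      rw [← area2_rot, h0] at this
      simp at this
    · have := hpp a (by simp) b (by simp) hac hbc hab
      rw [h0] at this; simp at this
  -- leftmost and rightmost points
  obtain ⟨L, hL, hLmin⟩ := exists_first (fun a b => 0 < area2 a b q) A hne
    (by
      intro a ha b hb hab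
      have := h1 a (hA ha) b (hA hb) hab
      rcases lt_or_gt_of_ne this with h | h
      · right; rw [area2_swap]; linarith
      · left; exact h)
    (by intro a ha b hb c hc hab hbc _; exact h2 a (hA ha) b (hA hb) c (hA hc) hab hbc)
  obtain ⟨M, hM, hMmax⟩ := exists_first (fun a b => 0 < area2 b a q) A hne
    (by
      intro a ha b hb hab
      have := h1 a (hA ha) b (hA hb) hab
      rcases lt_or_gt_of_ne this with h | h
      · left; rw [area2_swap]; linarith
      · right; exact h)
    (by intro a ha b hb c hc hab hbc _; exact h2 c (hA hc) b (hA hb) a (hA ha) hbc hab)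
  -- the witness against `L`
  obtain ⟨i, hi, j, hj, hiL, hjL, hij, hwL⟩ := hcon L hL
  have hLM : L ≠ M := by
    intro hEq
    have e1 := hLmin i hi hiL
    have e2 := hMmax i hi (hEq ▸ hiL)
    rw [← hEq, area2_swap] at e2
    linarith
  obtain ⟨i', hi', j', hj', hiM, hjM, hij', hwM⟩ := hcon M hM
  have hLMq : 0 < area2 L M q := hLmin M hM hLM.symm
  by_cases hcase : ∀ b ∈ A, b ≠ L → b ≠ M → area2 L M b < 0
  · -- only two upper hull vertices
    have hsub : ({L, M, i, j, i', j'} : Finset Pt) ⊆ A := by
      intro x hx; simp only [Finset.mem_insert, Finset.mem_singleton] at hx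
      rcases hx with rfl | rfl | rfl | rfl | rfl | rfl <;> assumption
    have hcard : ({L, M, i, j, i', j'} : Finset Pt).card ≤ 6 := Finset.card_le_six
    obtain ⟨p, hp, hpp⟩ := (h _ (hsub.trans hA) hcard).2.2 _ (Finset.Subset.refl _) ⟨L, by simp⟩
    have hpA := hsub hp
    by_cases hpL : p = L
    · subst hpL
      have := hpp i (by simp) j (by simp) hiL hjL hij
      linarith
    by_cases hpM : p = M
    · subst hpM
      have := hpp i' (by simp) j' (by simp) hiM hjM hij'
      linarith
    have e1 := hcase p hpA hpL hpM
    have := hpp L (by simp) M (by simp) (Ne.symm hpL) (Ne.symm hpM) hLM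
    nlinarith
  · push Not at hcase
    obtain ⟨b0, hb0, hb0L, hb0M, hb0pos⟩ := hcase
    have hb0pos' : 0 < area2 L M b0 :=
      lt_of_le_of_ne hb0pos (Ne.symm (h3 L hL M hM b0 hb0 hLM (Ne.symm hb0L) (Ne.symm hb0M)))
    -- the neighbour of `L` on the upper hull
    obtain ⟨p1, hp1, hp1m⟩ := exists_first (fun a b => area2 L a b < 0) (A.erase L)
      ⟨M, by simp [hM, hLM.symm]⟩
      (by
        intro a ha b hb hab
        have ha' := Finset.mem_erase.1 ha
        have hb' := Finset.mem_erase.1 hb
        have := h3 L hL a ha'.2 b hb'.2 (Ne.symm ha'.1) (Ne.symm hb'.1) hab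
        rcases lt_or_gt_of_ne this with h | h
        · left; exact h
        · right
          have e : area2 L b a = - area2 L a b := by unfold area2; ring
          rw [e]; linarith)
      (by
        intro a ha b hb c hc hab hbc _
        have ha' := Finset.mem_erase.1 ha
        have hb' := Finset.mem_erase.1 hb
        have hc' := Finset.mem_erase.1 hc
        have qa := hLmin a ha'.2 ha'.1
        have qb := hLmin b hb'.2 hb'.1
        have qc := hLmin c hc'.2 hc'.1
        have gp := area2_gp L a b c q
        have e1 : area2 L a b * area2 L c q < 0 := mul_neg_of_neg_of_pos hab qc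
        have e2 : area2 L a q * area2 L b c < 0 := mul_neg_of_pos_of_neg qa hbc
        have e3 : area2 L a c * area2 L b q < 0 := by linarith
        by_contra hge
        push Not at hge
        have := mul_nonneg hge qb.le
        linarith)
    obtain ⟨p2, hp2, hp2m⟩ := exists_first (fun a b => area2 a M b < 0) (A.erase M)
      ⟨L, by simp [hL, hLM]⟩
      (by
        intro a ha b hb hab
        have ha' := Finset.mem_erase.1 ha
        have hb' := Finset.mem_erase.1 hb
        have := h3 a ha'.2 M hM b hb'.2 ha'.1 hab (Ne.symm hb'.1)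
        rcases lt_or_gt_of_ne this with h | h
        · left; exact h
        · right
          have e : area2 b M a = - area2 a M b := by unfold area2; ring
          rw [e]; linarith)
      (by
        intro a ha b hb c hc hab hbc _
        have ha' := Finset.mem_erase.1 ha
        have hb' := Finset.mem_erase.1 hb
        have hc' := Finset.mem_erase.1 hc
        have qa := hMmax a ha'.2 ha'.1
        have qb := hMmax b hb'.2 hb'.1
        have qc := hMmax c hc'.2 hc'.1
        have gp : area2 a M b * area2 c M q - area2 a M c * area2 b M q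
            + area2 a M q * area2 b M c = 0 := by unfold area2; ring
        have e1 : area2 a M b * area2 c M q < 0 := mul_neg_of_neg_of_pos hab qc
        have e2 : area2 a M q * area2 b M c < 0 := mul_neg_of_pos_of_neg qa hbc
        have e3 : area2 a M c * area2 b M q < 0 := by linarith
        by_contra hge
        push Not at hge
        have := mul_nonneg hge qb.le
        linarith)
    have hp1A := (Finset.mem_erase.1 hp1).2
    have hp1L := (Finset.mem_erase.1 hp1).1
    have hp2A := (Finset.mem_erase.1 hp2).2
    have hp2M := (Finset.mem_erase.1 hp2).1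
    have hp1M : p1 ≠ M := by
      intro hEq
      have := hp1m b0 (by simp [hb0, hb0L]) (hEq ▸ hb0M)
      rw [hEq] at this
      linarith
    have hp2L : p2 ≠ L := by
      intro hEq
      have := hp2m b0 (by simp [hb0, hb0M]) (hEq ▸ hb0L)
      rw [hEq] at this
      linarith
    have hLp1 : 0 < area2 L p1 q := hLmin p1 hp1A hp1L
    have hp2Mq : 0 < area2 p2 M q := hMmax p2 hp2A hp2M
    by_cases h12 : p1 = p2
    · subst h12
      obtain ⟨u, hu, v, hv, hup, hvp, huv, hwp⟩ := hcon p1 hp1A
      have hsub : ({L, M, p1, u, v} : Finset Pt) ⊆ A := by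
        intro x hx; simp only [Finset.mem_insert, Finset.mem_singleton] at hx
        rcases hx with rfl | rfl | rfl | rfl | rfl <;> assumption
      have hcard : ({L, M, p1, u, v} : Finset Pt).card ≤ 6 :=
        le_trans Finset.card_le_five (by norm_num)
      obtain ⟨p, hp, hpp⟩ := (h _ (hsub.trans hA) hcard).2.2 _ (Finset.Subset.refl _)
        ⟨L, by simp⟩
      have hpA := hsub hp
      by_cases hpL : p = L
      · subst hpL
        have e1 := hp2m p (by simp [hpA, hLM]) (Ne.symm hp2L)
        have := hpp p1 (by simp) M (by simp) hp1L (Ne.symm hLM) hp1M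
        nlinarith
      by_cases hpp1 : p = p1
      · subst hpp1
        have := hpp u (by simp) v (by simp) hup hvp huv
        linarith
      have e1 := hp1m p (by simp [hpA, hpL]) hpp1
      have := hpp L (by simp) p1 (by simp) (Ne.symm hpL) (Ne.symm hpp1) (Ne.symm hp1L)
      nlinarith
    · have hsub : ({L, M, p1, p2} : Finset Pt) ⊆ A := by
        intro x hx; simp only [Finset.mem_insert, Finset.mem_singleton] at hx
        rcases hx with rfl | rfl | rfl | rfl <;> assumption
      have hcard : ({L, M, p1, p2} : Finset Pt).card ≤ 6 :=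
        le_trans Finset.card_le_four (by norm_num)
      obtain ⟨p, hp, hpp⟩ := (h _ (hsub.trans hA) hcard).2.2 _ (Finset.Subset.refl _)
        ⟨L, by simp⟩
      have hpA := hsub hp
      by_cases hpL : p = L
      · subst hpL
        have e1 := hp2m p (by simp [hpA, hLM]) (Ne.symm hp2L)
        have := hpp p2 (by simp) M (by simp) hp2L (Ne.symm hLM) hp2M
        nlinarith
      by_cases hpp1 : p = p1
      · subst hpp1
        have e1 := hp2m p (by simp [hpA, hp1M]) h12
        have := hpp p2 (by simp) M (by simp) (Ne.symm h12) (Ne.symm hp1M) hp2M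
        nlinarith
      have e1 := hp1m p (by simp [hpA, hpL]) hpp1
      have := hpp L (by simp) p1 (by simp) (Ne.symm hpL) (Ne.symm hpp1) (Ne.symm hp1L)
      nlinarith

end Pool.Agent.Helper90.Stretch
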