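import Pool.Agent.Helper90.Stretch.Sample

/-! The sublinear tester. -/

namespace Pool.Agent.Helper90.Stretch

open Finset Filter Asymptotics Topology

/-- The sample size used for large inputs. -/
noncomputable def sz (n : ℕ) : ℕ := ⌈(n : ℝ) ^ (13 / 14 : ℝ)⌉₊

theorem le_sz (n : ℕ) : (n : ℝ) ^ (13 / 14 : ℝ) ≤ sz n := Nat.le_ceil _

theorem sz_le_add (n : ℕ) : (sz n : ℝ) ≤ (n : ℝ) ^ (13 / 14 : ℝ) + 1 :=
  (Nat.ceil_lt_add_one (Real.rpow_nonneg (Nat.cast_nonneg n) _)).le

theorem sz_le (n : ℕ) (hn : 1 ≤ n) : sz n ≤ n := by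
  apply Nat.ceil_le.2
  have h1 : (1 : ℝ) ≤ n := by exact_mod_cast hn
  calc (n : ℝ) ^ (13 / 14 : ℝ) ≤ (n : ℝ) ^ (1 : ℝ) :=
        Real.rpow_le_rpow_of_exponent_le h1 (by norm_num)
    _ = n := Real.rpow_one _

theorem sz_littleO : (fun n : ℕ => (sz n : ℝ)) =o[atTop] (fun n : ℕ => (n : ℝ)) := by
  have h1 : (fun n : ℕ => (n : ℝ) ^ (13 / 14 : ℝ)) =o[atTop] (fun n : ℕ => (n : ℝ)) := by
    have h := (tendsto_rpow_neg_atTop (show (0 : ℝ) < 1 / 14 by norm_num)).comp
      (tendsto_natCast_atTop_atTop (R := ℝ))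
    refine (isLittleO_iff_tendsto' ?_).2 (h.congr' ?_)
    · filter_upwards [eventually_ge_atTop 1] with n hn h0
      have : (1 : ℝ) ≤ n := by exact_mod_cast hn
      linarith
    · filter_upwards [eventually_ge_atTop 1] with n hn
      have hn' : (0 : ℝ) < n := by exact_mod_cast hn
      simp only [Function.comp]
      rw [eq_div_iff hn'.ne']
      nth_rewrite 2 [← Real.rpow_one (n : ℝ)]
      rw [← Real.rpow_add hn']
      norm_num
  have h2 : (fun _ : ℕ => (1 : ℝ)) =o[atTop] (fun n : ℕ => (n : ℝ)) := by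
    rw [isLittleO_const_left]
    right
    have := tendsto_natCast_atTop_atTop (R := ℝ)
    refine this.congr (fun n => ?_)
    simp
  have h3 := h1.add h2
  refine IsBigO.trans_isLittleO (IsBigO.of_bound 1 (Eventually.of_forall fun n => ?_)) h3
  rw [one_mul, Real.norm_of_nonneg (Nat.cast_nonneg _), Real.norm_of_nonneg
    (by have := Real.rpow_nonneg (Nat.cast_nonneg n : (0:ℝ) ≤ n) (13 / 14 : ℝ); linarith)]
  exact sz_le_add n

theorem lim_exp : Tendsto (fun n : ℕ => (n : ℝ) * Real.exp (-(Real.sqrt n / 1536))) atTop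
    (𝓝 0) := by
  have h := (Real.tendsto_pow_mul_exp_neg_atTop_nhds_zero 2).const_mul ((1536 : ℝ) ^ 2)
  have hs : Tendsto (fun n : ℕ => Real.sqrt n / 1536) atTop atTop :=
    (Real.tendsto_sqrt_atTop.comp tendsto_natCast_atTop_atTop).atTop_div_const (by norm_num)
  have := h.comp hs
  rw [mul_zero] at this
  refine this.congr (fun n => ?_)
  simp only [Function.comp]
  rw [div_pow, Real.sq_sqrt (Nat.cast_nonneg n)]
  field_simp

theorem pow_seven (n : ℕ) : ((n : ℝ) ^ (13 / 14 : ℝ)) ^ 7 = (n : ℝ) ^ 6 * Real.sqrt n := by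
  have hn : (0 : ℝ) ≤ n := Nat.cast_nonneg n
  rw [← Real.rpow_natCast ((n : ℝ) ^ (13 / 14 : ℝ)) 7, ← Real.rpow_mul hn,
    Real.sqrt_eq_rpow, ← Real.rpow_natCast (n : ℝ) 6, ← Real.rpow_add_of_nonneg hn
      (by norm_num) (by norm_num)]
  congr 1
  norm_num

theorem main (ε p : ℝ) (hε : 0 < ε) (hp : 0 < p) :
    ∃ k : ℕ → ℕ, (∀ n, k n ≤ n) ∧
      (fun n : ℕ => (k n : ℝ)) =o[atTop] (fun n : ℕ => (n : ℝ)) ∧ Achieves k ε p := by
  classical
  have E1 : ∀ᶠ n : ℕ in atTop, (n : ℝ) * Real.exp (-(Real.sqrt n / 1536)) < p :=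
    (lim_exp.eventually (gt_mem_nhds hp))
  have E2 : ∀ᶠ n : ℕ in atTop, (sz n : ℝ) ≤ 2 * ε * n := by
    have := sz_littleO.bound (show (0 : ℝ) < 2 * ε by linarith)
    filter_upwards [this] with n hn
    rwa [Real.norm_of_nonneg (Nat.cast_nonneg _), Real.norm_of_nonneg (Nat.cast_nonneg _)] at hn
  have E3 : ∀ᶠ n : ℕ in atTop, (24 : ℝ) ≤ (n : ℝ) ^ (13 / 14 : ℝ) := by
    have : Tendsto (fun n : ℕ => (n : ℝ) ^ (13 / 14 : ℝ)) atTop atTop :=
      (tendsto_rpow_atTop (by norm_num)).comp tendsto_natCast_atTop_atTop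
    exact this.eventually_ge_atTop 24
  have E4 : ∀ᶠ n : ℕ in atTop, 1 ≤ n := eventually_ge_atTop 1
  obtain ⟨n0, hn0⟩ := eventually_atTop.1 (E1.and (E2.and (E3.and E4)))
  refine ⟨fun n => if n < n0 then n else sz n, ?_, ?_, ?_⟩
  · intro n
    by_cases h : n < n0
    · simp [h]
    · simp only [h, if_false]
      exact sz_le n (hn0 n (not_lt.1 h)).2.2.2
  · refine sz_littleO.congr' ?_ EventuallyEq.rfl
    filter_upwards [eventually_ge_atTop n0] with n hn
    simp [not_lt.2 hn]
  · intro S hfar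
    by_cases h : S.card < n0
    · simp only [h, if_true]
      have hnot : ¬ Stretched S := by
        have := hfar ∅ (Finset.empty_subset _) (by simp; positivity)
        simpa using this
      unfold acceptProb
      have : (S.powersetCard S.card).filter (fun K => Stretched K) = ∅ := by
        apply Finset.filter_eq_empty_iff.2
        intro K hK
        rw [Finset.powersetCard_self, Finset.mem_singleton] at hK
        rw [hK]; exact hnot
      have hz : (((S.powersetCard S.card).filter (fun K => Stretched K)).card : ℝ) = 0 := by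
        rw [this]; simp
      have hz' : acceptProb S.card S = 0 := by
        unfold acceptProb
        rw [div_eq_zero_iff]
        left
        convert hz
      have := hz'
      unfold acceptProb at this
      rw [this]
      exact hp.le
    · simp only [h, if_false]
      obtain ⟨e1, e2, e3, e4⟩ := hn0 S.card (not_lt.1 h)
      set n := S.card with hn
      set k := sz n with hk
      have hk24 : (24 : ℝ) ≤ k := e3.trans (le_sz n)
      have hk24' : 24 ≤ k := by exact_mod_cast hk24
      have hkn : k ≤ n := sz_le n e4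
      have hn1 : (1 : ℝ) ≤ n := by exact_mod_cast e4
      have hknR : (k : ℝ) ≤ n := by exact_mod_cast hkn
      set r := k / 12 with hr
      have hr12 : 12 * r ≤ k := Nat.mul_div_le k 12
      have hr24 : k ≤ 24 * r := by omega
      have hr12R : 12 * (r : ℝ) ≤ k := by exact_mod_cast hr12
      have hr24R : (k : ℝ) ≤ 24 * r := by exact_mod_cast hr24
      set ρ : ℝ := k / (2 * n) with hρ
      have hρ0 : 0 ≤ ρ := by positivity
      have hρ1 : ρ ≤ 1 := by
        rw [hρ, div_le_one (by positivity)]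
        linarith
      have hρn : ρ * n = k / 2 := by
        rw [hρ]; field_simp
      have hk0 : ((k - 6 * r : ℕ) : ℝ) = (k : ℝ) - 6 * r := by
        rw [Nat.cast_sub (by omega)]
        push_cast; ring
      have hacc := acceptProb_le hfar k (k - 6 * r) r ρ hρ0 hρ1
        (by rw [← hn, hρn, hk0]; linarith) (by omega) hkn (by omega)
        (by rw [← hn]; linarith)
      refine hacc.trans (le_trans ?_ e1.le)
      rw [← hn]
      apply mul_le_mul_of_nonneg_left _ (by positivity)
      have hρ6 : 0 ≤ 1 - ρ ^ 6 := by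
        have := pow_le_one₀ (n := 6) hρ0 hρ1
        linarith
      calc (1 - ρ ^ 6) ^ r ≤ (Real.exp (-(ρ ^ 6))) ^ r :=
            pow_le_pow_left₀ hρ6 (Real.one_sub_le_exp_neg _) r
        _ = Real.exp (-(ρ ^ 6 * r)) := by
            rw [← Real.exp_nat_mul]; congr 1; ring
        _ ≤ Real.exp (-(Real.sqrt n / 1536)) := by
            apply Real.exp_le_exp.2
            apply neg_le_neg
            have h7 : (n : ℝ) ^ 6 * Real.sqrt n ≤ (k : ℝ) ^ 7 := by
              rw [← pow_seven]
              exact pow_le_pow_left₀ (Real.rpow_nonneg (Nat.cast_nonneg n) _) (le_sz n) 7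
            have h8 : ρ ^ 6 * ((k : ℝ) / 24) ≤ ρ ^ 6 * r := by
              apply mul_le_mul_of_nonneg_left _ (by positivity)
              linarith
            refine le_trans ?_ h8
            have h9 : ρ ^ 6 * ((k : ℝ) / 24) = (k : ℝ) ^ 7 / (1536 * (n : ℝ) ^ 6) := by
              rw [hρ]; field_simp; ring
            rw [h9, div_le_div_iff₀ (by norm_num) (by positivity)]
            nlinarith

end Pool.Agent.Helper90.Stretch
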