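import Pool.Agent.Helper90.Stretch.Local

/-! A nonempty finite set is stretched iff it is good for some top point. -/

namespace Pool.Agent.Helper90.Stretch

open Finset

theorem Good.exists_rank {q : Pt} : ∀ (n : ℕ) (R : Finset Pt), R.card = n → Good q R →
    ∃ y : Pt → ℕ, (∀ a ∈ R, y a < n) ∧ (∀ a ∈ R, ∀ b ∈ R, y a = y b → a = b) ∧
      (∀ i ∈ R, ∀ j ∈ R, ∀ k ∈ R, i ≠ j → y i < y k → y j < y k →
        0 < area2 i j k * area2 i j q) := by
  classical
  intro n
  induction n with
  | zero =>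
    intro R hR _
    have : R = ∅ := Finset.card_eq_zero.1 hR
    subst this
    exact ⟨fun _ => 0, by simp, by simp, by simp⟩
  | succ n ih =>
    intro R hR hg
    have hne : R.Nonempty := by
      rw [← Finset.card_pos]; omega
    obtain ⟨p, hp, hpp⟩ := hg.2.2 R (Finset.Subset.refl _) hne
    have hc : (R.erase p).card = n := by
      rw [Finset.card_erase_of_mem hp]; omega
    obtain ⟨y, hy1, hy2, hy3⟩ := ih (R.erase p) hc (hg.mono (Finset.erase_subset _ _))
    refine ⟨fun a => if a = p then n else y a, ?_, ?_, ?_⟩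
    · intro a ha
      by_cases hap : a = p
      · simp [hap]
      · have := hy1 a (Finset.mem_erase.2 ⟨hap, ha⟩)
        simp only [hap, if_false]; omega
    · intro a ha b hb hab
      by_cases hap : a = p <;> by_cases hbp : b = p
      · rw [hap, hbp]
      · simp only [hap, hbp, if_true, if_false] at hab
        have := hy1 b (Finset.mem_erase.2 ⟨hbp, hb⟩)
        omega
      · simp only [hap, hbp, if_true, if_false] at hab
        have := hy1 a (Finset.mem_erase.2 ⟨hap, ha⟩)
        omega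
      · simp only [hap, hbp, if_false] at hab
        exact hy2 a (Finset.mem_erase.2 ⟨hap, ha⟩) b (Finset.mem_erase.2 ⟨hbp, hb⟩) hab
    · intro i hi j hj k hk hij hik hjk
      by_cases hkp : k = p
      · subst hkp
        have hik' : i ≠ k := by rintro rfl; exact lt_irrefl _ hik
        have hjk' : j ≠ k := by rintro rfl; exact lt_irrefl _ hjk
        exact hpp i hi j hj hik' hjk' hij
      · have hky := hy1 k (Finset.mem_erase.2 ⟨hkp, hk⟩)
        have hip : i ≠ p := by
          intro h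
          simp only [h, hkp, if_true, if_false] at hik
          omega
        have hjp : j ≠ p := by
          intro h
          simp only [h, hkp, if_true, if_false] at hjk
          omega
        simp only [hip, hjp, hkp, if_false] at hik hjk
        exact hy3 i (Finset.mem_erase.2 ⟨hip, hi⟩) j (Finset.mem_erase.2 ⟨hjp, hj⟩) k
          (Finset.mem_erase.2 ⟨hkp, hk⟩) hij hik hjk

theorem sign_eq_of_mul_pos {a b c : ℝ} (h1 : 0 < a * c) (h2 : 0 < b * c) :
    SignType.sign a = SignType.sign b := by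
  rcases pos_and_pos_or_neg_and_neg_of_mul_pos h1 with ⟨ha, hc⟩ | ⟨ha, hc⟩
  · have hb : 0 < b := (pos_iff_pos_of_mul_pos h2).2 hc
    rw [sign_pos ha, sign_pos hb]
  · have hb : b < 0 := by
      rcases pos_and_pos_or_neg_and_neg_of_mul_pos h2 with ⟨_, hc'⟩ | ⟨hb, _⟩
      · linarith
      · exact hb
    rw [sign_neg ha, sign_neg hb]

theorem area2_line_pos {s s' t : Pt} (hx : s.1 ≠ s'.1)
    (h : s.2 + (s'.2 - s.2) / (s'.1 - s.1) * (t.1 - s.1) < t.2) :
    0 < area2 s s' t * (s'.1 - s.1) := by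
  have hd : s'.1 - s.1 ≠ 0 := sub_ne_zero.2 (Ne.symm hx)
  have e : area2 s s' t * (s'.1 - s.1)
      = (s'.1 - s.1) ^ 2 * (t.2 - (s.2 + (s'.2 - s.2) / (s'.1 - s.1) * (t.1 - s.1))) := by
    unfold area2
    field_simp
    ring
  rw [e]
  have : 0 < (s'.1 - s.1) ^ 2 := by positivity
  exact mul_pos this (by linarith)

theorem mul_pos_trans {a b c : ℝ} (h1 : 0 < a * b) (h2 : 0 < b * c) : 0 < a * c := by
  rcases pos_and_pos_or_neg_and_neg_of_mul_pos h1 with ⟨ha, hb⟩ | ⟨ha, hb⟩
  · exact mul_pos ha ((pos_iff_pos_of_mul_pos h2).1 hb)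
  · have hc : c < 0 := by
      rcases pos_and_pos_or_neg_and_neg_of_mul_pos h2 with ⟨hb', _⟩ | ⟨_, hc⟩
      · linarith
      · exact hc
    exact mul_pos_of_neg_of_neg ha hc

/-- Equality of all orientations follows from the triples whose last point is highest. -/
theorem sign_all {S : Finset Pt} {Y : Pt → ℕ} {f : Pt → Pt}
    (hY : ∀ a ∈ S, ∀ b ∈ S, Y a = Y b → a = b)
    (h : ∀ i ∈ S, ∀ j ∈ S, ∀ k ∈ S, i ≠ j → Y i < Y k → Y j < Y k →
      SignType.sign (area2 (f i) (f j) (f k)) = SignType.sign (area2 i j k)) :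
    ∀ a ∈ S, ∀ b ∈ S, ∀ c ∈ S,
      SignType.sign (area2 (f a) (f b) (f c)) = SignType.sign (area2 a b c) := by
  have z1 : ∀ a b : Pt, area2 a a b = 0 := by intro a b; unfold area2; ring
  have z2 : ∀ a b : Pt, area2 a b a = 0 := by intro a b; unfold area2; ring
  have z3 : ∀ a b : Pt, area2 a b b = 0 := by intro a b; unfold area2; ring
  intro a ha b hb c hc
  by_cases hab : a = b
  · subst hab; rw [z1, z1]
  by_cases hac : a = c
  · subst hac; rw [z2, z2]
  by_cases hbc : b = c
  · subst hbc; rw [z3, z3]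
  have yab : Y a ≠ Y b := fun e => hab (hY a ha b hb e)
  have yac : Y a ≠ Y c := fun e => hac (hY a ha c hc e)
  have ybc : Y b ≠ Y c := fun e => hbc (hY b hb c hc e)
  by_cases h1 : Y a < Y c ∧ Y b < Y c
  · exact h a ha b hb c hc hab h1.1 h1.2
  by_cases h2 : Y b < Y a ∧ Y c < Y a
  · have := h b hb c hc a ha hbc h2.1 h2.2
    rw [area2_rot (f a) (f b) (f c), area2_rot a b c] at this
    exact this
  · have h3 : Y c < Y b ∧ Y a < Y b := by omega
    have := h c hc a ha b hb (Ne.symm hac) h3.1 h3.2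
    rw [← area2_rot (f c) (f a) (f b), ← area2_rot c a b] at this
    exact this

theorem stretched_of_good {q : Pt} {R : Finset Pt} (hq : q ∉ R) (hg : Good q R) :
    Stretched (insert q R) := by
  classical
  obtain ⟨y, hy1, hy2, hy3⟩ := Good.exists_rank R.card R rfl hg
  set n := R.card with hn
  set x : Pt → ℕ := fun a => if a = q then n else (R.filter fun b => 0 < area2 b a q).card
    with hx
  set Y : Pt → ℕ := fun a => if a = q then n else y a with hYdef
  have hRq : ∀ a ∈ R, a ≠ q := fun a ha h => hq (h ▸ ha)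
  have xq : x q = n := by simp [hx]
  have Yq : Y q = n := by simp [hYdef]
  have xR : ∀ a ∈ R, x a = (R.filter fun b => 0 < area2 b a q).card := by
    intro a ha; simp [hx, hRq a ha]
  have YR : ∀ a ∈ R, Y a = y a := by
    intro a ha; simp [hYdef, hRq a ha]
  have xlt : ∀ a ∈ R, x a < n := by
    intro a ha
    rw [xR a ha, hn]
    apply Finset.card_lt_card
    refine ⟨Finset.filter_subset _ _, fun hsub => ?_⟩
    have := (Finset.mem_filter.1 (hsub ha)).2
    have e : area2 a a q = 0 := by unfold area2; ring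
    rw [e] at this
    exact lt_irrefl _ this
  have Ylt : ∀ a ∈ R, Y a < n := by
    intro a ha; rw [YR a ha]; exact hy1 a ha
  have xmono : ∀ a ∈ R, ∀ b ∈ R, 0 < area2 a b q → x a < x b := by
    intro a ha b hb hab
    rw [xR a ha, xR b hb]
    apply Finset.card_lt_card
    refine ⟨?_, fun hsub => ?_⟩
    · intro c hc
      have hc' := Finset.mem_filter.1 hc
      exact Finset.mem_filter.2 ⟨hc'.1, hg.2.1 c hc'.1 a ha b hb hc'.2 hab⟩
    · have : a ∈ R.filter fun c => 0 < area2 c a q :=
        hsub (Finset.mem_filter.2 ⟨ha, hab⟩)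
      have := (Finset.mem_filter.1 this).2
      have e : area2 a a q = 0 := by unfold area2; ring
      rw [e] at this
      exact lt_irrefl _ this
  have xdiff : ∀ a ∈ R, ∀ b ∈ R, a ≠ b → 0 < area2 a b q * ((x b : ℝ) - x a) := by
    intro a ha b hb hab
    rcases lt_or_gt_of_ne (hg.1 a ha b hb hab) with h | h
    · have h' : 0 < area2 b a q := by rw [area2_swap]; linarith
      have := xmono b hb a ha h'
      have h3 : (x b : ℝ) < x a := by exact_mod_cast this
      exact mul_pos_of_neg_of_neg h (by linarith)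
    · have := xmono a ha b hb h
      have h3 : (x a : ℝ) < x b := by exact_mod_cast this
      exact mul_pos h (by linarith)
  have xle : ∀ a ∈ insert q R, x a ≤ n := by
    intro a ha
    rcases Finset.mem_insert.1 ha with rfl | ha
    · exact xq.le
    · exact (xlt a ha).le
  have xinj : ∀ a ∈ insert q R, ∀ b ∈ insert q R, a ≠ b → x a ≠ x b := by
    intro a ha b hb hab
    rcases Finset.mem_insert.1 ha with ha | ha <;> rcases Finset.mem_insert.1 hb with hb | hb
    · exact absurd (ha.trans hb.symm) hab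
    · rw [ha, xq]; exact (xlt b hb).ne'
    · rw [hb, xq]; exact (xlt a ha).ne
    · intro e
      have := xdiff a ha b hb hab
      rw [e] at this
      simp at this
  have Yinj : ∀ a ∈ insert q R, ∀ b ∈ insert q R, Y a = Y b → a = b := by
    intro a ha b hb hab
    rcases Finset.mem_insert.1 ha with ha | ha <;> rcases Finset.mem_insert.1 hb with hb | hb
    · exact ha.trans hb.symm
    · rw [ha, Yq] at hab; exact absurd hab (Ylt b hb).ne'
    · rw [hb, Yq] at hab; exact absurd hab (Ylt a ha).ne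
    · rw [YR a ha, YR b hb] at hab; exact hy2 a ha b hb hab
  have key : ∀ i ∈ insert q R, ∀ j ∈ insert q R, ∀ k ∈ insert q R, i ≠ j → Y i < Y k →
      Y j < Y k → 0 < area2 i j k * ((x j : ℝ) - x i) := by
    intro i hi j hj k hk hij hik hjk
    have hkn : Y k ≤ n := by
      rcases Finset.mem_insert.1 hk with hk | hk
      · rw [hk, Yq]
      · exact (Ylt k hk).le
    have hiR : i ∈ R := by
      rcases Finset.mem_insert.1 hi with hi | hi
      · rw [hi, Yq] at hik; omega
      · exact hi
    have hjR : j ∈ R := by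
      rcases Finset.mem_insert.1 hj with hj | hj
      · rw [hj, Yq] at hjk; omega
      · exact hj
    have h1 := xdiff i hiR j hjR hij
    rcases Finset.mem_insert.1 hk with hk | hk
    · rw [hk]; exact h1
    · rw [YR i hiR, YR k hk] at hik
      rw [YR j hjR, YR k hk] at hjk
      exact mul_pos_trans (hy3 i hiR j hjR k hk hij hik hjk) h1
  set H : ℕ → ℝ := fun m => ((n : ℝ) + 2) ^ m with hH
  have hbase : (1 : ℝ) ≤ (n : ℝ) + 2 := by
    have : (0 : ℝ) ≤ n := Nat.cast_nonneg n
    linarith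
  have hbase' : (1 : ℝ) < (n : ℝ) + 2 := by
    have : (0 : ℝ) ≤ n := Nat.cast_nonneg n
    linarith
  have Hmono : ∀ a b : ℕ, a ≤ b → H a ≤ H b := fun a b hab => pow_le_pow_right₀ hbase hab
  have Hlt : ∀ a b : ℕ, H a < H b ↔ a < b := fun a b => pow_lt_pow_iff_right₀ hbase'
  have Hone : ∀ a : ℕ, 1 ≤ H a := fun a => one_le_pow₀ hbase
  set f : Pt → Pt := fun a => ((x a : ℝ), H (Y a)) with hf
  have fx : ∀ a, (f a).1 = (x a : ℝ) := fun a => rfl
  have fy : ∀ a, (f a).2 = H (Y a) := fun a => rfl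
  have finj : ∀ a ∈ insert q R, ∀ b ∈ insert q R, f a = f b → a = b := by
    intro a ha b hb hab
    by_contra hne
    apply xinj a ha b hb hne
    have := congrArg Prod.fst hab
    rw [fx, fx] at this
    exact_mod_cast this
  have hline : ∀ i ∈ insert q R, ∀ j ∈ insert q R, ∀ k ∈ insert q R, i ≠ j → Y i < Y k →
      Y j < Y k →
      (f i).2 + ((f j).2 - (f i).2) / ((f j).1 - (f i).1) * ((f k).1 - (f i).1) < (f k).2 := by
    intro i hi j hj k hk hij hik hjk
    rw [fx, fx, fx, fy, fy, fy]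
    obtain ⟨m, hm⟩ : ∃ m, Y k = m + 1 := ⟨Y k - 1, by omega⟩
    have hHk : H (Y k) = ((n : ℝ) + 2) * H m := by
      rw [hm]; simp only [hH]; ring
    have hHi : H (Y i) ≤ H m := Hmono _ _ (by omega)
    have hHj : H (Y j) ≤ H m := Hmono _ _ (by omega)
    have hHi1 := Hone (Y i)
    have hHj1 := Hone (Y j)
    have hm1 := Hone m
    have hxne := xinj i hi j hj hij
    have habs : (1 : ℝ) ≤ |(x j : ℝ) - x i| := by
      rcases lt_or_gt_of_ne hxne with h | h
      · have : (x i : ℝ) + 1 ≤ x j := by exact_mod_cast h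
        rw [abs_of_nonneg (by linarith)]; linarith
      · have : (x j : ℝ) + 1 ≤ x i := by exact_mod_cast h
        rw [abs_of_nonpos (by linarith)]; linarith
    have habs2 : |(x k : ℝ) - x i| ≤ n := by
      have h1 : (x k : ℝ) ≤ n := by exact_mod_cast xle k hk
      have h2 : (x i : ℝ) ≤ n := by exact_mod_cast xle i hi
      have h3 : (0 : ℝ) ≤ x k := Nat.cast_nonneg _
      have h4 : (0 : ℝ) ≤ x i := Nat.cast_nonneg _
      rw [abs_le]; constructor <;> linarith
    have habs3 : |H (Y j) - H (Y i)| ≤ H m := by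
      rw [abs_le]; constructor <;> linarith
    have hb : |(H (Y j) - H (Y i)) / ((x j : ℝ) - x i) * ((x k : ℝ) - x i)| ≤ H m * n := by
      rw [abs_mul, abs_div]
      apply mul_le_mul _ habs2 (abs_nonneg _) (by linarith)
      exact (div_le_self (abs_nonneg _) habs).trans habs3
    have hb' := (abs_le.1 hb).2
    rw [hHk]
    nlinarith
  refine ⟨(insert q R).image f, Prod.snd, ?_, ⟨?_, ?_⟩, ?_⟩
  · intro s hs t ht hst
    obtain ⟨a, ha, rfl⟩ := Finset.mem_image.1 hs
    obtain ⟨b, hb, rfl⟩ := Finset.mem_image.1 ht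
    have hab : a ≠ b := fun e => hst (by rw [e])
    constructor
    · rw [fx, fx]; exact_mod_cast xinj a ha b hb hab
    · rw [fy, fy]
      intro e
      apply hab
      apply Yinj a ha b hb
      rcases lt_trichotomy (Y a) (Y b) with h | h | h
      · exact absurd e ((Hlt _ _).2 h).ne
      · exact h
      · exact absurd e ((Hlt _ _).2 h).ne'
  · intro s _ t _ hst
    exact hst
  · intro s hs s' hs' t ht hss' hst hs't
    obtain ⟨i, hi, rfl⟩ := Finset.mem_image.1 hs
    obtain ⟨j, hj, rfl⟩ := Finset.mem_image.1 hs'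
    obtain ⟨k, hk, rfl⟩ := Finset.mem_image.1 ht
    have hij : i ≠ j := fun e => hss' (by rw [e])
    rw [fy, fy, Hlt] at hst hs't
    exact hline i hi j hj k hk hij hst hs't
  · have himg : ((insert q R).image f).image (fun t => (t.1, Prod.snd t))
        = (insert q R).image f := by
      simp
    rw [himg]
    have hbij : Function.Bijective (fun a : (insert q R : Finset Pt) =>
        (⟨f a, Finset.mem_image_of_mem f a.2⟩ : ((insert q R).image f : Finset Pt))) := by
      constructor
      · intro a b hab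
        have := congrArg Subtype.val hab
        exact Subtype.ext (finj a a.2 b b.2 this)
      · intro u
        obtain ⟨a, ha, hau⟩ := Finset.mem_image.1 u.2
        exact ⟨⟨a, ha⟩, Subtype.ext hau⟩
    refine ⟨Equiv.ofBijective _ hbij, ?_⟩
    intro a b c
    have := sign_all (S := insert q R) (Y := Y) (f := f) Yinj
      (by
        intro i hi j hj k hk hij hik hjk
        have h1 := area2_line_pos (s := f i) (s' := f j) (t := f k)
          (by rw [fx, fx]; exact_mod_cast xinj i hi j hj hij)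
          (hline i hi j hj k hk hij hik hjk)
        rw [fx, fx] at h1
        exact sign_eq_of_mul_pos h1 (key i hi j hj k hk hij hik hjk))
      a a.2 b b.2 c c.2
    exact this

theorem good_of_stretched {K : Finset Pt} (hK : K.Nonempty) (h : Stretched K) :
    ∃ q ∈ K, Good q (K.erase q) := by
  classical
  obtain ⟨T, g, hT, ⟨_, hh⟩, f, hf⟩ := h
  have hmem : ∀ a : K, ∃ t ∈ T, (t.1, g t) = (f a : Pt) := fun a =>
    Finset.mem_image.1 (f a).2
  choose t ht hte using hmem
  set X : Pt → ℝ := fun a => if h : a ∈ K then (t ⟨a, h⟩).1 else 0 with hX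
  set Y : Pt → ℝ := fun a => if h : a ∈ K then (t ⟨a, h⟩).2 else 0 with hY
  have tinj : ∀ a b : K, t a = t b → a = b := by
    intro a b hab
    have e : (f a : Pt) = f b := by rw [← hte a, ← hte b, hab]
    exact f.injective (Subtype.ext e)
  have XK : ∀ (a : Pt) (ha : a ∈ K), X a = (t ⟨a, ha⟩).1 := by
    intro a ha; simp [hX, ha]
  have YK : ∀ (a : Pt) (ha : a ∈ K), Y a = (t ⟨a, ha⟩).2 := by
    intro a ha; simp [hY, ha]
  have tne : ∀ (a : Pt) (ha : a ∈ K) (b : Pt) (hb : b ∈ K), a ≠ b →
      t ⟨a, ha⟩ ≠ t ⟨b, hb⟩ := by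
    intro a ha b hb hab e
    exact hab (congrArg Subtype.val (tinj _ _ e))
  have Xne : ∀ a ∈ K, ∀ b ∈ K, a ≠ b → X a ≠ X b := by
    intro a ha b hb hab
    rw [XK a ha, XK b hb]
    exact (hT _ (ht _) _ (ht _) (tne a ha b hb hab)).1
  have Yne : ∀ a ∈ K, ∀ b ∈ K, a ≠ b → Y a ≠ Y b := by
    intro a ha b hb hab
    rw [YK a ha, YK b hb]
    exact (hT _ (ht _) _ (ht _) (tne a ha b hb hab)).2
  have key : ∀ i ∈ K, ∀ j ∈ K, ∀ k ∈ K, i ≠ j → Y i < Y k → Y j < Y k →
      0 < area2 i j k * (X j - X i) := by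
    intro i hi j hj k hk hij hik hjk
    rw [YK i hi, YK k hk] at hik
    rw [YK j hj, YK k hk] at hjk
    have hl := hh _ (ht ⟨i, hi⟩) _ (ht ⟨j, hj⟩) _ (ht ⟨k, hk⟩) (tne i hi j hj hij) hik hjk
    have e1 := hte ⟨i, hi⟩
    have e2 := hte ⟨j, hj⟩
    have e3 := hte ⟨k, hk⟩
    have hxne : (t ⟨i, hi⟩).1 ≠ (t ⟨j, hj⟩).1 := by
      have := Xne i hi j hj hij
      rwa [XK i hi, XK j hj] at this
    have h1 := area2_line_pos (s := ((t ⟨i, hi⟩).1, g (t ⟨i, hi⟩)))
      (s' := ((t ⟨j, hj⟩).1, g (t ⟨j, hj⟩))) (t := ((t ⟨k, hk⟩).1, g (t ⟨k, hk⟩))) hxne hl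
    rw [e1, e2, e3] at h1
    have e1' : ((f ⟨i, hi⟩ : Pt)).1 = X i := by rw [← e1, XK i hi]
    have e2' : ((f ⟨j, hj⟩ : Pt)).1 = X j := by rw [← e2, XK j hj]
    rw [e1', e2'] at h1
    have hs := hf ⟨i, hi⟩ ⟨j, hj⟩ ⟨k, hk⟩
    rcases pos_and_pos_or_neg_and_neg_of_mul_pos h1 with ⟨ha, hc⟩ | ⟨ha, hc⟩
    · rw [sign_pos ha] at hs
      have : 0 < area2 i j k := sign_eq_one_iff.1 hs.symm
      exact mul_pos this hc
    · rw [sign_neg ha] at hs
      have : area2 i j k < 0 := sign_eq_neg_one_iff.1 hs.symm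
      exact mul_pos_of_neg_of_neg this hc
  obtain ⟨q, hq, hqmax⟩ := Finset.exists_max_image K Y hK
  have hYq : ∀ a ∈ K.erase q, Y a < Y q := by
    intro a ha
    have ha' := Finset.mem_erase.1 ha
    exact lt_of_le_of_ne (hqmax a ha'.2) (Yne a ha'.2 q hq ha'.1)
  have hkq : ∀ a ∈ K.erase q, ∀ b ∈ K.erase q, a ≠ b → 0 < area2 a b q * (X b - X a) := by
    intro a ha b hb hab
    exact key a (Finset.mem_erase.1 ha).2 b (Finset.mem_erase.1 hb).2 q hq hab
      (hYq a ha) (hYq b hb)
  refine ⟨q, hq, ?_, ?_, ?_⟩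
  · intro a ha b hb hab h0
    have := hkq a ha b hb hab
    rw [h0] at this
    simp at this
  · intro a ha b hb c hc hab hbc
    have nab : a ≠ b := by
      rintro rfl
      have e : area2 a a q = 0 := by unfold area2; ring
      rw [e] at hab; exact lt_irrefl _ hab
    have nbc : b ≠ c := by
      rintro rfl
      have e : area2 b b q = 0 := by unfold area2; ring
      rw [e] at hbc; exact lt_irrefl _ hbc
    have x1 := (pos_iff_pos_of_mul_pos (hkq a ha b hb nab)).1 hab
    have x2 := (pos_iff_pos_of_mul_pos (hkq b hb c hc nbc)).1 hbc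
    have nac : a ≠ c := by
      rintro rfl
      linarith
    have := hkq a ha c hc nac
    exact (pos_iff_pos_of_mul_pos this).2 (by linarith)
  · intro A hA hAne
    obtain ⟨p, hp, hpmax⟩ := Finset.exists_max_image A Y hAne
    refine ⟨p, hp, fun i hi j hj hip hjp hij => ?_⟩
    have hiK := (Finset.mem_erase.1 (hA hi)).2
    have hjK := (Finset.mem_erase.1 (hA hj)).2
    have hpK := (Finset.mem_erase.1 (hA hp)).2
    have h1 := key i hiK j hjK p hpK hij
      (lt_of_le_of_ne (hpmax i hi) (Yne i hiK p hpK hip))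
      (lt_of_le_of_ne (hpmax j hj) (Yne j hjK p hpK hjp))
    have h2 := hkq i (hA hi) j (hA hj) hij
    rw [mul_comm] at h2
    exact mul_pos_trans h1 h2

end Pool.Agent.Helper90.Stretch
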