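import Pool.Agent.Helper90.Stretch.Realize

/-! Sampling: a random `k`-subset contains a member of a large disjoint family. -/

namespace Pool.Agent.Helper90.Stretch

open Finset

theorem choose_shift (ρ : ℝ) (hρ0 : 0 ≤ ρ) (n0 k0 : ℕ) (hρ : ρ * n0 ≤ k0) :
    ∀ m a b : ℕ, a + m ≤ n0 → k0 ≤ b + 1 →
      ρ ^ m * ((a + m).choose (b + m) : ℝ) ≤ (a.choose b : ℝ) := by
  have step : ∀ a b : ℕ, a + 1 ≤ n0 → k0 ≤ b + 1 →
      ρ * ((a + 1).choose (b + 1) : ℝ) ≤ (a.choose b : ℝ) := by
    intro a b ha hb
    have h := Nat.add_one_mul_choose_eq a b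
    have h' : ((a : ℝ) + 1) * (a.choose b : ℝ) = ((a + 1).choose (b + 1) : ℝ) * ((b : ℝ) + 1) := by
      exact_mod_cast h
    have hk : (k0 : ℝ) ≤ (b : ℝ) + 1 := by exact_mod_cast hb
    have hn : (a : ℝ) + 1 ≤ n0 := by exact_mod_cast ha
    have hC : (0 : ℝ) ≤ ((a + 1).choose (b + 1) : ℝ) := Nat.cast_nonneg _
    have ha0 : (0 : ℝ) < (a : ℝ) + 1 := by positivity
    have h1 : ρ * ((a : ℝ) + 1) ≤ (b : ℝ) + 1 := by
      calc ρ * ((a : ℝ) + 1) ≤ ρ * n0 := mul_le_mul_of_nonneg_left hn hρ0
        _ ≤ k0 := hρ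
        _ ≤ _ := hk
    have h2 : ((a : ℝ) + 1) * (ρ * ((a + 1).choose (b + 1) : ℝ))
        ≤ ((a : ℝ) + 1) * (a.choose b : ℝ) := by
      rw [h']
      calc ((a : ℝ) + 1) * (ρ * ((a + 1).choose (b + 1) : ℝ))
          = ((a + 1).choose (b + 1) : ℝ) * (ρ * ((a : ℝ) + 1)) := by ring
        _ ≤ _ := mul_le_mul_of_nonneg_left h1 hC
    exact le_of_mul_le_mul_left h2 ha0
  intro m
  induction m with
  | zero => intro a b _ _; simp
  | succ m ih =>
    intro a b ha hb
    have h1 := step (a + m) (b + m) (by omega) (by omega)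
    have h2 := ih a b (by omega) hb
    calc ρ ^ (m + 1) * ((a + (m + 1)).choose (b + (m + 1)) : ℝ)
        = ρ ^ m * (ρ * ((a + m + 1).choose (b + m + 1) : ℝ)) := by
          rw [← add_assoc, ← add_assoc]; ring
      _ ≤ ρ ^ m * ((a + m).choose (b + m) : ℝ) :=
          mul_le_mul_of_nonneg_left h1 (pow_nonneg hρ0 m)
      _ ≤ _ := h2

theorem sum_choose_powerset {α : Type*} (O : Finset α) (N k : ℕ) (hk : O.card ≤ k) :
    ∑ A ∈ O.powerset, (N.choose (k - A.card)) = (O.card + N).choose k := by
  rw [Finset.sum_powerset_apply_card (fun j => N.choose (k - j)), Nat.add_choose_eq,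
    Finset.Nat.sum_antidiagonal_eq_sum_range_succ_mk]
  simp only [smul_eq_mul]
  apply Finset.sum_subset
  · intro j hj
    rw [Finset.mem_range] at hj ⊢
    omega
  · intro j _ hj
    rw [Finset.mem_range, not_lt] at hj
    rw [Nat.choose_eq_zero_of_lt (by omega), zero_mul]

theorem count_avoid {α : Type*} [DecidableEq α] (ρ : ℝ) (hρ0 : 0 ≤ ρ) (hρ1 : ρ ≤ 1)
    (n0 k0 : ℕ) (hρ : ρ * n0 ≤ k0) (F : Finset (Finset α)) :
    ∀ (S : Finset α) (k : ℕ), (∀ O ∈ F, ∀ O' ∈ F, O ≠ O' → Disjoint O O') →
      (∀ O ∈ F, O ⊆ S ∧ O.card ≤ 6) → S.card ≤ n0 → k0 + 6 * F.card ≤ k →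
      (((S.powersetCard k).filter fun K => ∀ O ∈ F, ¬ O ⊆ K).card : ℝ)
        ≤ (1 - ρ ^ 6) ^ F.card * (S.card.choose k : ℝ) := by
  induction F using Finset.induction_on with
  | empty =>
    intro S k _ _ _ _
    simp
  | insert O F hO ih =>
    intro S k hdis hsub hS hk
    have hOS : O ⊆ S := (hsub O (Finset.mem_insert_self _ _)).1
    have hO6 : O.card ≤ 6 := (hsub O (Finset.mem_insert_self _ _)).2
    rw [Finset.card_insert_of_notMem hO] at hk ⊢
    have hρ6 : 0 ≤ 1 - ρ ^ 6 := by
      have := pow_le_one₀ (n := 6) hρ0 hρ1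
      linarith
    set N := (S \ O).card with hN
    have hcardS : S.card = O.card + N := by
      rw [hN, Finset.card_sdiff_of_subset hOS]
      have := Finset.card_le_card hOS
      omega
    -- the fibre over `A = K ∩ O`
    set P : Finset α → Prop := fun K => ∀ O' ∈ insert O F, ¬ O' ⊆ K with hP
    have hfib : ((S.powersetCard k).filter fun K => ∀ O' ∈ insert O F, ¬ O' ⊆ K).card
        = ∑ A ∈ O.powerset,
          (((S.powersetCard k).filter fun K => ∀ O' ∈ insert O F, ¬ O' ⊆ K).filter
            fun K => K ∩ O = A).card := by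
      apply Finset.card_eq_sum_card_fiberwise
      intro K _
      exact Finset.mem_coe.2 (Finset.mem_powerset.2 Finset.inter_subset_right)
    have hbound : ∀ A ∈ O.powerset,
        ((((S.powersetCard k).filter fun K => ∀ O' ∈ insert O F, ¬ O' ⊆ K).filter
            fun K => K ∩ O = A).card : ℝ)
          ≤ (1 - ρ ^ 6) ^ F.card * (if A = O then 0 else (N.choose (k - A.card) : ℝ)) := by
      intro A hA
      have hAO : A ⊆ O := Finset.mem_powerset.1 hA
      by_cases hAeq : A = O
      · subst hAeq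
        have : (((S.powersetCard k).filter fun K => ∀ O' ∈ insert A F, ¬ O' ⊆ K).filter
            fun K => K ∩ A = A) = ∅ := by
          apply Finset.filter_eq_empty_iff.2
          intro K hK hKA
          exact (Finset.mem_filter.1 hK).2 A (Finset.mem_insert_self _ _)
            (Finset.inter_eq_right.1 hKA)
        rw [this]
        simp
      · simp only [hAeq, if_false]
        have hA6 : A.card ≤ 6 := (Finset.card_le_card hAO).trans hO6
        have h1 := ih (S \ O) (k - A.card)
          (fun O1 h1 O2 h2 => hdis O1 (Finset.mem_insert_of_mem h1) O2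
            (Finset.mem_insert_of_mem h2))
          (by
            intro O' hO'
            refine ⟨?_, (hsub O' (Finset.mem_insert_of_mem hO')).2⟩
            have hne : O ≠ O' := by rintro rfl; exact hO hO'
            have hd := hdis O (Finset.mem_insert_self _ _) O' (Finset.mem_insert_of_mem hO') hne
            exact Finset.subset_sdiff.2
              ⟨(hsub O' (Finset.mem_insert_of_mem hO')).1, hd.symm⟩)
          (by
            have := Finset.card_le_card (Finset.sdiff_subset : S \ O ⊆ S)
            omega)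
          (by omega)
        refine le_trans ?_ h1
        have hinj : (((S.powersetCard k).filter fun K => ∀ O' ∈ insert O F, ¬ O' ⊆ K).filter
            fun K => K ∩ O = A).card
            ≤ (((S \ O).powersetCard (k - A.card)).filter fun K => ∀ O' ∈ F, ¬ O' ⊆ K).card := by
          apply Finset.card_le_card_of_injOn (fun K => K \ O)
          · intro K hK
            have hK1 := Finset.mem_filter.1 (Finset.mem_coe.1 hK)
            have hK2 := Finset.mem_filter.1 hK1.1
            have hK3 := Finset.mem_powersetCard.1 hK2.1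
            refine Finset.mem_coe.2 (Finset.mem_filter.2 ⟨Finset.mem_powersetCard.2 ⟨?_, ?_⟩, ?_⟩)
            · exact Finset.sdiff_subset_sdiff hK3.1 (Finset.Subset.refl _)
            · change (K \ O).card = k - A.card
              have e := Finset.card_sdiff_add_card_inter K O
              rw [hK1.2, hK3.2] at e
              omega
            · intro O' hO' hsubK
              exact hK2.2 O' (Finset.mem_insert_of_mem hO')
                (hsubK.trans Finset.sdiff_subset)
          · intro K hK K' hK' hEq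
            have hK1 := Finset.mem_filter.1 (Finset.mem_coe.1 hK)
            have hK1' := Finset.mem_filter.1 (Finset.mem_coe.1 hK')
            have e1 := Finset.sdiff_union_inter K O
            have e2 := Finset.sdiff_union_inter K' O
            simp only at hEq
            rw [← e1, ← e2, hEq, hK1.2, hK1'.2]
        exact_mod_cast hinj
    rw [hfib]
    push_cast
    refine (Finset.sum_le_sum hbound).trans ?_
    rw [← Finset.mul_sum]
    have hsumsplit : ∑ A ∈ O.powerset, (if A = O then (0 : ℝ) else (N.choose (k - A.card) : ℝ))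
        = (S.card.choose k : ℝ) - (N.choose (k - O.card) : ℝ) := by
      have e1 : ∑ A ∈ O.powerset, (N.choose (k - A.card) : ℝ) = (S.card.choose k : ℝ) := by
        rw [hcardS, ← sum_choose_powerset O N k (by omega)]
        push_cast
        rfl
      have e2 : ∑ A ∈ O.powerset, (if A = O then (N.choose (k - A.card) : ℝ) else 0)
          = (N.choose (k - O.card) : ℝ) := by
        rw [Finset.sum_ite_eq' O.powerset O (fun A => (N.choose (k - A.card) : ℝ))]
        simp
      rw [← e1, ← e2, ← Finset.sum_sub_distrib]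
      apply Finset.sum_congr rfl
      intro A _
      split_ifs <;> simp
    rw [hsumsplit]
    have hshift : ρ ^ 6 * (S.card.choose k : ℝ) ≤ (N.choose (k - O.card) : ℝ) := by
      have h1 := choose_shift ρ hρ0 n0 k0 hρ O.card N (k - O.card) (by omega) (by omega)
      have e1 : N + O.card = S.card := by omega
      have e2 : k - O.card + O.card = k := by omega
      rw [e1, e2] at h1
      refine le_trans ?_ h1
      exact mul_le_mul_of_nonneg_right (pow_le_pow_of_le_one hρ0 hρ1 hO6) (Nat.cast_nonneg _)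
    calc (1 - ρ ^ 6) ^ F.card * ((S.card.choose k : ℝ) - (N.choose (k - O.card) : ℝ))
        ≤ (1 - ρ ^ 6) ^ F.card * ((1 - ρ ^ 6) * (S.card.choose k : ℝ)) := by
          apply mul_le_mul_of_nonneg_left _ (pow_nonneg hρ6 _)
          linarith
      _ = (1 - ρ ^ 6) ^ (F.card + 1) * (S.card.choose k : ℝ) := by ring

theorem good_empty (q : Pt) : Good q ∅ := by
  refine ⟨by simp, by simp, ?_⟩
  intro A hA hne
  exact absurd (Finset.subset_empty.1 hA) hne.ne_empty

/-- For every point `q` of an `ε`-far set there is a large disjoint family of small sets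
that are not good for `q`. -/
theorem exists_family {ε : ℝ} {S : Finset Pt} (hfar : IsFar ε S) {q : Pt} (hq : q ∈ S) :
    ∃ F : Finset (Finset Pt), (∀ O ∈ F, ∀ O' ∈ F, O ≠ O' → Disjoint O O') ∧
      (∀ O ∈ F, O ⊆ S.erase q ∧ O.card ≤ 6 ∧ ¬ Good q O) ∧ ε * S.card < 6 * F.card := by
  classical
  set 𝓕 : Finset (Finset (Finset Pt)) := ((S.erase q).powerset.powerset).filter fun F =>
    (∀ O ∈ F, ∀ O' ∈ F, O ≠ O' → Disjoint O O') ∧ (∀ O ∈ F, O.card ≤ 6 ∧ ¬ Good q O) with h𝓕
  have hne : 𝓕.Nonempty := ⟨∅, by simp [h𝓕]⟩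
  obtain ⟨F, hF, hFmax⟩ := Finset.exists_max_image 𝓕 Finset.card hne
  have hF' := Finset.mem_filter.1 hF
  have hFsub : ∀ O ∈ F, O ⊆ S.erase q := fun O hO =>
    Finset.mem_powerset.1 ((Finset.mem_powerset.1 hF'.1) hO)
  set U := F.biUnion id with hU
  have hUsub : U ⊆ S.erase q := by
    intro x hx
    obtain ⟨O, hO, hxO⟩ := Finset.mem_biUnion.1 hx
    exact hFsub O hO hxO
  have hgood : Good q ((S.erase q) \ U) := by
    apply good_of_local
    intro R' hR' hc
    by_contra hbad
    have hRne : R'.Nonempty := by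
      rw [Finset.nonempty_iff_ne_empty]
      rintro rfl
      exact hbad (good_empty q)
    have hRU : Disjoint R' U := (Finset.subset_sdiff.1 hR').2
    have hRnot : R' ∉ F := by
      intro hmem
      obtain ⟨x, hx⟩ := hRne
      exact (Finset.disjoint_left.1 hRU hx) (Finset.mem_biUnion.2 ⟨R', hmem, hx⟩)
    have hdisj : ∀ O ∈ F, Disjoint R' O := by
      intro O hO
      exact Finset.disjoint_of_subset_right (Finset.subset_biUnion_of_mem id hO) hRU
    have hins : insert R' F ∈ 𝓕 := by
      apply Finset.mem_filter.2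
      refine ⟨?_, ?_, ?_⟩
      · apply Finset.mem_powerset.2
        intro O hO
        rcases Finset.mem_insert.1 hO with rfl | hO
        · exact Finset.mem_powerset.2 (hR'.trans Finset.sdiff_subset)
        · exact Finset.mem_powerset.2 (hFsub O hO)
      · intro O hO O' hO' hOO'
        rcases Finset.mem_insert.1 hO with hO1 | hO1 <;>
          rcases Finset.mem_insert.1 hO' with hO2 | hO2
        · exact absurd (hO1.trans hO2.symm) hOO'
        · rw [hO1]; exact hdisj O' hO2
        · rw [hO2]; exact (hdisj O hO1).symm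
        · exact hF'.2.1 O hO1 O' hO2 hOO'
      · intro O hO
        rcases Finset.mem_insert.1 hO with rfl | hO
        · exact ⟨hc, hbad⟩
        · exact hF'.2.2 O hO
    have := hFmax _ hins
    rw [Finset.card_insert_of_notMem hRnot] at this
    omega
  have hstr : Stretched (insert q ((S.erase q) \ U)) := stretched_of_good (by simp) hgood
  have hqU : q ∉ U := fun h => by simpa using hUsub h
  have heq : insert q ((S.erase q) \ U) = S \ U := by
    ext x
    simp only [Finset.mem_insert, Finset.mem_sdiff, Finset.mem_erase]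
    constructor
    · rintro (rfl | ⟨⟨_, h2⟩, h3⟩)
      · exact ⟨hq, hqU⟩
      · exact ⟨h2, h3⟩
    · rintro ⟨h1, h2⟩
      by_cases hx : x = q
      · exact Or.inl hx
      · exact Or.inr ⟨⟨hx, h1⟩, h2⟩
  rw [heq] at hstr
  have hUcard : ε * S.card < U.card := by
    by_contra hle
    push Not at hle
    exact hfar U (hUsub.trans (Finset.erase_subset _ _)) hle hstr
  have hU6 : U.card ≤ F.card * 6 := by
    apply Finset.card_biUnion_le_card_mul
    intro O hO
    exact (hF'.2.2 O hO).1
  refine ⟨F, hF'.2.1, fun O hO => ⟨hFsub O hO, hF'.2.2 O hO⟩, ?_⟩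
  have : (U.card : ℝ) ≤ F.card * 6 := by exact_mod_cast hU6
  linarith

/-- The acceptance probability for an `ε`-far set. -/
theorem acceptProb_le {ε : ℝ} {S : Finset Pt} (hfar : IsFar ε S) (k k0 r : ℕ) (ρ : ℝ)
    (hρ0 : 0 ≤ ρ) (hρ1 : ρ ≤ 1) (hρ : ρ * S.card ≤ k0) (hk1 : 1 ≤ k) (hkn : k ≤ S.card)
    (hk : k0 + 6 * r ≤ k) (hr : 6 * (r : ℝ) ≤ ε * S.card) :
    acceptProb k S ≤ S.card * (1 - ρ ^ 6) ^ r := by
  classical
  have hfam : ∀ q : Pt, ∃ F : Finset (Finset Pt), q ∈ S →
      ((∀ O ∈ F, ∀ O' ∈ F, O ≠ O' → Disjoint O O') ∧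
      (∀ O ∈ F, O ⊆ S.erase q ∧ O.card ≤ 6 ∧ ¬ Good q O) ∧ F.card = r) := by
    intro q
    by_cases hq : q ∈ S
    · obtain ⟨F, h1, h2, h3⟩ := exists_family hfar hq
      have hrF : r ≤ F.card := by
        have : (6 : ℝ) * r < 6 * F.card := lt_of_le_of_lt hr h3
        have h' : (r : ℝ) < F.card := by linarith
        exact_mod_cast h'.le
      obtain ⟨F', hF', hc⟩ := Finset.exists_subset_card_eq hrF
      exact ⟨F', fun _ => ⟨fun O hO O' hO' => h1 O (hF' hO) O' (hF' hO'),
        fun O hO => h2 O (hF' hO), hc⟩⟩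
    · exact ⟨∅, fun h => absurd h hq⟩
  choose F hF using hfam
  have hsubset : ((S.powersetCard k).filter fun K => Stretched K)
      ⊆ S.biUnion fun q => (S.powersetCard k).filter fun K => ∀ O ∈ F q, ¬ O ⊆ K := by
    intro K hK
    have hK1 := Finset.mem_filter.1 hK
    have hK2 := Finset.mem_powersetCard.1 hK1.1
    have hKne : K.Nonempty := by
      rw [← Finset.card_pos]; omega
    obtain ⟨q, hq, hg⟩ := good_of_stretched hKne hK1.2
    have hqS := hK2.1 hq
    apply Finset.mem_biUnion.2
    refine ⟨q, hqS, Finset.mem_filter.2 ⟨hK1.1, ?_⟩⟩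
    intro O hO hOK
    obtain ⟨h1, h2, h3⟩ := hF q hqS
    apply (h2 O hO).2.2
    apply hg.mono
    intro x hx
    exact Finset.mem_erase.2 ⟨(Finset.mem_erase.1 ((h2 O hO).1 hx)).1, hOK hx⟩
  have hcount : (((S.powersetCard k).filter fun K => Stretched K).card : ℝ)
      ≤ S.card * ((1 - ρ ^ 6) ^ r * (S.card.choose k : ℝ)) := by
    have h1 : (((S.powersetCard k).filter fun K => Stretched K).card : ℝ)
        ≤ ∑ q ∈ S, (((S.powersetCard k).filter fun K => ∀ O ∈ F q, ¬ O ⊆ K).card : ℝ) := by
      have := (Finset.card_le_card hsubset).trans Finset.card_biUnion_le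
      exact_mod_cast this
    refine h1.trans ?_
    have h2 : ∀ q ∈ S, (((S.powersetCard k).filter fun K => ∀ O ∈ F q, ¬ O ⊆ K).card : ℝ)
        ≤ (1 - ρ ^ 6) ^ r * (S.card.choose k : ℝ) := by
      intro q hq
      obtain ⟨g1, g2, g3⟩ := hF q hq
      have := count_avoid ρ hρ0 hρ1 S.card k0 hρ (F q) S k g1
        (fun O hO => ⟨(g2 O hO).1.trans (Finset.erase_subset _ _), (g2 O hO).2.1⟩) le_rfl
        (by rw [g3]; exact hk)
      rwa [g3] at this
    refine (Finset.sum_le_sum h2).trans ?_
    rw [Finset.sum_const, nsmul_eq_mul]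
  unfold acceptProb
  rw [Finset.card_powersetCard]
  have hpos : (0 : ℝ) < (S.card.choose k : ℝ) := by exact_mod_cast Nat.choose_pos hkn
  rw [div_le_iff₀ hpos]
  have e : (S.card : ℝ) * (1 - ρ ^ 6) ^ r * (S.card.choose k : ℝ)
      = S.card * ((1 - ρ ^ 6) ^ r * (S.card.choose k : ℝ)) := by ring
  rw [e]
  convert hcount using 3

end Pool.Agent.Helper90.Stretch
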